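import Pool.Agent.X279.NK.Cat

/-!
# The noncommutative Künneth conjecture: coefficients, one correspondence, pairs of classes

`C` is the category of saturated dg categories whose morphisms are the integral noncommutative
correspondences (the elements of `K₀(A^op ⊗ B)`), `R` is periodic cyclic homology with values in
super vector spaces over a field `K` of characteristic zero, and `F` is a subfield of `K`.
-/

set_option autoImplicit false
set_option linter.unusedSectionVars false

open CategoryTheory MonoidalCategory Polynomial

namespace Pool.Agent.Results.MP_eadf0f_ag.CoefficientsAndPairs

open Pool.Agent.Y112.SR Pool.Agent.X279.NK

section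

variable {K V : Type*} [Field K] [AddCommGroup V] [Module K V] (P : Module.End K V)
  (A : Set (Module.End K V))

/-- Both projectors are combinations, with coefficients in `F`, of operators in `A`. -/
def AlgebraicOver (F : Subfield K) : Prop :=
  evenProj P ∈ Submodule.span F A ∧ oddProj P ∈ Submodule.span F A

/-- The even projector is a combination, with coefficients in `K`, of operators in `A`. -/
def EvenInSpan : Prop := evenProj P ∈ Submodule.span K A

/-- A positive multiple of the even projector is in `A`. -/
def IntegralMultiple : Prop := ∃ m : ℕ, m ≠ 0 ∧ (m : K) • evenProj P ∈ A

end

universe v u w

variable {C : Type u} [Category.{v} C] [Preadditive C] [MonoidalCategory C] [SymmetricCategory C]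
  {K : Type w} [Field K] (R : SuperRealisation C K)

/-- The conjecture `C_NC(A)` with coefficients in `F`: both Künneth projectors are combinations,
with coefficients in `F`, of operators induced by integral correspondences. -/
def KunnethAlgebraic (F : Subfield K) (A : C) : Prop := AlgebraicOver (parity R A) (ops R A) F

/-- One integral correspondence preserves the even and the odd part, with coprime characteristic
polynomials on the two parts. -/
def CoprimeCorrespondence (A : C) : Prop :=
  ∃ x : A ⟶ A, CoprimeParts (parity R A) (R.H.map x).hom

theorem result [RightRigidCategory C] [CharZero K] (hu : IntegralUnit C) (A : C)
    (F : Subfield K) :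
    List.TFAE [
      -- the conjecture with coefficients in `F`
      KunnethAlgebraic R F A,
      -- the conjecture with coefficients in `K`
      EvenInSpan (parity R A) (ops R A),
      -- a multiple of the even projector is induced by an integral correspondence
      IntegralMultiple (parity R A) (ops R A),
      -- one correspondence whose eigenvalues on the two parts are different
      CoprimeCorrespondence R A,
      -- each even class is separated from each odd class, one pair at a time
      SeparatesPairs (parity R A) (ops R A),
      -- detection of single pairs of matrix coefficients
      DetectsPairs (parity R A) (ops R A),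
      -- each subspace which is stable under the correspondences is graded
      StableGraded (parity R A) (ops R A)] := by
  have e4 : (∃ a ∈ ops R A, CoprimeParts (parity R A) a) ↔ CoprimeCorrespondence R A := by
    constructor
    · rintro ⟨_, ⟨x, rfl⟩, hx⟩
      exact ⟨x, hx⟩
    · rintro ⟨x, hx⟩
      exact ⟨_, ⟨x, rfl⟩, hx⟩
  rw [← e4]
  exact main_tfae (evenRing R hu A) F

end Pool.Agent.Results.MP_eadf0f_ag.CoefficientsAndPairs
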