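import Pool.Agent.X279.NK.Cat
import Pool.Agent.X279.NK.Euler

/-!
# The noncommutative Künneth conjecture is a finite system of Euler characteristics

`C` is the category of saturated dg categories whose morphisms are the integral noncommutative
correspondences (the elements of `K₀(A^op ⊗ B)`), `R` is periodic cyclic homology with values in
super vector spaces over a field `K` of characteristic zero, and `F` is a subfield of `K`. The
supertrace of the operator induced by `x : A ⟶ A` is an integer, the Euler characteristic of the
Hochschild complex of the bimodule `x`.
-/

set_option autoImplicit false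
set_option linter.unusedSectionVars false

open CategoryTheory MonoidalCategory Polynomial

namespace Pool.Agent.Results.MP_eadf0f_ag.EulerNumbers

open Pool.Agent.Y112.SR Pool.Agent.X279.NK

section

variable {K V : Type*} [Field K] [AddCommGroup V] [Module K V] (P : Module.End K V)
  (A : Set (Module.End K V))

/-- Both projectors are combinations, with coefficients in `F`, of operators in `A`. -/
def AlgebraicOver (F : Subfield K) : Prop :=
  evenProj P ∈ Submodule.span F A ∧ oddProj P ∈ Submodule.span F A

end

universe v u w

variable {C : Type u} [Category.{v} C] [Preadditive C] [MonoidalCategory C] [SymmetricCategory C]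
  {K : Type w} [Field K] (R : SuperRealisation C K)

/-- The conjecture `C_NC(A)` with coefficients in `F`: both Künneth projectors are combinations,
with coefficients in `F`, of operators induced by integral correspondences. -/
def KunnethAlgebraic (F : Subfield K) (A : C) : Prop := AlgebraicOver (parity R A) (ops R A) F

/-- The Euler characteristic of a correspondence: the supertrace of the induced operator. -/
noncomputable def euler (A : C) (x : End A) : K :=
  LinearMap.trace K (R.H.obj A) ((R.H.map x).hom * parity R A)

/-- The dimension of the even part. -/
noncomputable def evenDim (A : C) : ℕ := Module.finrank K (evenPart (parity R A))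

/-- The dimension of the odd part. -/
noncomputable def oddDim (A : C) : ℕ := Module.finrank K (oddPart (parity R A))

/-- There are a positive integer `m` and an integral correspondence `x` such that `x ^ k` has Euler
characteristic `m ^ k * (d⁺ - (-1) ^ k * d⁻)` for `1 ≤ k ≤ d⁺ + d⁻`. -/
def IntegralSolution (A : C) : Prop :=
  ∃ m : ℕ, m ≠ 0 ∧ ∃ x : End A, ∀ k : ℕ, 1 ≤ k → k ≤ evenDim R A + oddDim R A →
    euler R A (x ^ k) = (m : K) ^ k * ((evenDim R A : K) - (-1) ^ k * oddDim R A)

theorem map_pow_hom (A : C) (x : End A) (k : ℕ) :
    (R.H.map (x ^ k : End A)).hom = ((R.H.map x).hom : Module.End K (R.H.obj A)) ^ k := by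
  induction k with
  | zero =>
    have e : R.H.map (x ^ 0 : End A) = 𝟙 _ := by
      rw [pow_zero]
      exact R.H.map_id A
    rw [e, pow_zero]
    rfl
  | succ k ih =>
    have e : R.H.map (x ^ (k + 1) : End A) = R.H.map x ≫ R.H.map (x ^ k : End A) := by
      rw [pow_succ]
      exact R.H.map_comp x (x ^ k : End A)
    rw [e, pow_succ, ← ih]
    rfl

theorem result [RightRigidCategory C] [CharZero K] (hu : IntegralUnit C) (A : C)
    (F : Subfield K) :
    List.TFAE [
      -- the conjecture with coefficients in `F`
      KunnethAlgebraic R F A,
      -- the system of Euler characteristics has an integral solution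
      IntegralSolution R A,
      -- the system has a solution with coefficients in `K`
      PowerTraces (parity R A) (ops R A)] := by
  have hfin : Module.finrank K (R.H.obj A) = evenDim R A + oddDim R A :=
    (finrank_parts (parity_sq R A)).symm
  have e2 : IntegralPowerTraces (parity R A) (ops R A) ↔ IntegralSolution R A := by
    constructor
    · rintro ⟨m, hm, _, ⟨x, rfl⟩, hx⟩
      refine ⟨m, hm, x, fun k hk1 hk2 => ?_⟩
      rw [euler, map_pow_hom]
      exact hx k hk1 (hfin ▸ hk2)
    · rintro ⟨m, hm, x, hx⟩
      refine ⟨m, hm, _, ⟨x, rfl⟩, fun k hk1 hk2 => ?_⟩
      have := hx k hk1 (hfin ▸ hk2)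
      rw [euler, map_pow_hom] at this
      exact this
  rw [← e2]
  exact powerTraces_tfae (evenRing R hu A) F

end Pool.Agent.Results.MP_eadf0f_ag.EulerNumbers
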