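import Pool.Agent.X279.NK.Cat
import Pool.Agent.X279.NK.Idem

/-!
# The noncommutative Künneth conjecture and numerical noncommutative motives

`C` is the category of saturated dg categories whose morphisms are the integral noncommutative
correspondences (the elements of `K₀(A^op ⊗ B)`), `R` is periodic cyclic homology with values in
super vector spaces over a field `K` of characteristic zero, and `F` is a subfield of `K`. The Euler
characteristic of a direct summand of the numerical noncommutative motive of `A` is an integer
between `- d⁻` and `d⁺`, where `d⁺` and `d⁻` are the dimensions of the even and of the odd periodic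
cyclic homology of `A`, and the Künneth projectors of `A` are algebraic if and only if one of the two
bounds is attained.
-/

set_option autoImplicit false
set_option linter.unusedSectionVars false

open CategoryTheory MonoidalCategory Polynomial

namespace Pool.Agent.Results.MP_eadf0f_ag.NumericalSummands

open Pool.Agent.Y112.SR Pool.Agent.X279.NK

section

variable {K V : Type*} [Field K] [AddCommGroup V] [Module K V] (P : Module.End K V)
  (A : Set (Module.End K V))

/-- Both projectors are combinations, with coefficients in `F`, of operators in `A`. -/
def AlgebraicOver (F : Subfield K) : Prop :=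
  evenProj P ∈ Submodule.span F A ∧ oddProj P ∈ Submodule.span F A

/-- The supertraces of the idempotents modulo numerical equivalence are integers between
`- dim V⁻` and `dim V⁺`. -/
def BoundedSummands : Prop :=
  ∀ e : Module.End K V, NumIdempotent P A e → ∃ n : ℤ, LinearMap.trace K V (e * P) = n ∧
    -(Module.finrank K (oddPart P) : ℤ) ≤ n ∧ n ≤ Module.finrank K (evenPart P)

/-- Some idempotent modulo numerical equivalence, with coefficients in `F`, has the largest possible
supertrace `dim V⁺`. -/
def MaximalSummandOver (F : Subfield K) : Prop :=
  ∃ e ∈ Submodule.span F A, NumIdempotent P A e ∧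
    LinearMap.trace K V (e * P) = Module.finrank K (evenPart P)

/-- Some idempotent modulo numerical equivalence has the largest possible supertrace `dim V⁺`. -/
def MaximalSummand : Prop :=
  ∃ e, NumIdempotent P A e ∧ LinearMap.trace K V (e * P) = Module.finrank K (evenPart P)

/-- Some idempotent modulo numerical equivalence has the smallest possible supertrace `- dim V⁻`. -/
def MinimalSummand : Prop :=
  ∃ e, NumIdempotent P A e ∧ LinearMap.trace K V (e * P) = -(Module.finrank K (oddPart P) : K)

end

section

variable {K V : Type*} [Field K] [CharZero K] [AddCommGroup V] [Module K V] [Module.Finite K V]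
  {P : Module.End K V} {A : Set (Module.End K V)}

theorem tfae (h : EvenRing P A) (F : Subfield K) :
    List.TFAE [AlgebraicOver P A F, MaximalSummandOver P A F, MaximalSummand P A,
      MinimalSummand P A] := by
  have hm := main_tfae h F
  tfae_have 1 → 2 := fun h1 =>
    ⟨_, h1.1, numIdempotent_evenProj h ((hm.out 0 1).1 h1), str_evenProj h⟩
  tfae_have 2 → 3 := fun ⟨e, _, he, hs⟩ => ⟨e, he, hs⟩
  tfae_have 3 → 4 := fun ⟨e, he, hs⟩ => by
    refine ⟨1 - e, numIdempotent_one_sub h he, ?_⟩
    rw [sub_mul, map_sub, str_one h, hs]
    ring
  tfae_have 4 → 1 := fun ⟨e, he, hs⟩ => by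
    obtain ⟨n, h1, -, -, h4⟩ := idem_bounds h he
    apply (hm.out 0 1).2
    apply h4
    right
    rw [h1] at hs
    exact_mod_cast hs
  tfae_finish

end

universe v u w

variable {C : Type u} [Category.{v} C] [Preadditive C] [MonoidalCategory C] [SymmetricCategory C]
  {K : Type w} [Field K] (R : SuperRealisation C K)

/-- The conjecture `C_NC(A)` with coefficients in `F`: both Künneth projectors are combinations,
with coefficients in `F`, of operators induced by integral correspondences. -/
def KunnethAlgebraic (F : Subfield K) (A : C) : Prop := AlgebraicOver (parity R A) (ops R A) F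

theorem result [RightRigidCategory C] [CharZero K] (hu : IntegralUnit C) (A : C)
    (F : Subfield K) :
    BoundedSummands (parity R A) (ops R A) ∧
      List.TFAE [KunnethAlgebraic R F A, MaximalSummandOver (parity R A) (ops R A) F,
        MaximalSummand (parity R A) (ops R A), MinimalSummand (parity R A) (ops R A)] := by
  refine ⟨fun e he => ?_, tfae (evenRing R hu A) F⟩
  obtain ⟨n, h1, h2, h3, -⟩ := idem_bounds (evenRing R hu A) he
  exact ⟨n, h1, h2, h3⟩

end Pool.Agent.Results.MP_eadf0f_ag.NumericalSummands
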