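import Pool.Agent.X279.NK.Cat
import Pool.Agent.X279.NK.Var

/-!
# The noncommutative Künneth conjecture and the correspondence which represents the trace

`C` is the category of saturated dg categories whose morphisms are the integral noncommutative
correspondences (the elements of `K₀(A^op ⊗ B)`), `R` is periodic cyclic homology with values in
super vector spaces over a field `K` of characteristic zero, and `F` is a subfield of `K`. A
combination `w` of correspondences represents the trace if the supertrace of `w b` is the (ordinary)
trace of `b`, for all correspondences `b`. Then the supertrace of `w ^ 3` is a rational number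
`q ≥ d`, where `d` is the dimension of the periodic cyclic homology, and either `q = d`, and then
the Künneth projectors are algebraic, or `q > d + 4`, and then they are not.
-/

set_option autoImplicit false
set_option linter.unusedSectionVars false

open CategoryTheory MonoidalCategory Polynomial

namespace Pool.Agent.Results.MP_eadf0f_ag.TraceGap

open Pool.Agent.Y112.SR Pool.Agent.X279.NK

section

variable {K V : Type*} [Field K] [AddCommGroup V] [Module K V] (P : Module.End K V)
  (A : Set (Module.End K V))

/-- Both projectors are combinations, with coefficients in `F`, of operators in `A`. -/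
def AlgebraicOver (F : Subfield K) : Prop :=
  evenProj P ∈ Submodule.span F A ∧ oddProj P ∈ Submodule.span F A

/-- If a combination `w` of operators in `A` represents the trace then the supertrace of `w ^ 3` is
a rational number `q` which is at least `d = dim V`, and the projectors are algebraic if and only if
`q = d`, if and only if `q ≤ d + 4`. -/
def GapProperty (F : Subfield K) : Prop :=
  ∀ w ∈ Submodule.span K A, Represents P A w →
    ∃ q : ℚ, LinearMap.trace K V (w ^ 3 * P) = (q : K) ∧ (Module.finrank K V : ℚ) ≤ q ∧
      List.TFAE [AlgebraicOver P A F, q = Module.finrank K V, q ≤ Module.finrank K V + 4]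

/-- For a positive integer `m` some operator `x` in `A` represents `m` times the trace, and the
supertrace of `x ^ 3` has the smallest possible value `m ^ 3 * dim V`. -/
def IntegralWitness : Prop :=
  ∃ m : ℕ, m ≠ 0 ∧ ∃ x ∈ A,
    (∀ b ∈ A, LinearMap.trace K V (x * b * P) = (m : K) * LinearMap.trace K V b) ∧
      LinearMap.trace K V (x ^ 3 * P) = (m : K) ^ 3 * Module.finrank K V

end

section

variable {K V : Type*} [Field K] [CharZero K] [AddCommGroup V] [Module K V] [Module.Finite K V]
  {P : Module.End K V} {A : Set (Module.End K V)}

theorem gap (h : EvenRing P A) (F : Subfield K) : GapProperty P A F := by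
  intro w hw hr
  obtain ⟨q, h1, h2, h3, h4⟩ := trace_gap h hw hr
  refine ⟨q, h1, h2, ?_⟩
  have hm := (main_tfae h F).out 0 1
  tfae_have 1 → 2 := fun ha => h3 (hm.1 ha)
  tfae_have 2 → 3 := fun hq => by rw [hq]; linarith
  tfae_have 3 → 1 := fun hq => hm.2 (h4 hq)
  tfae_finish

theorem witness (h : EvenRing P A) (F : Subfield K) :
    AlgebraicOver P A F ↔ IntegralWitness P A := by
  have hm := main_tfae h F
  constructor
  · intro h1
    obtain ⟨m, hm0, hmA⟩ := (hm.out 0 2).1 h1
    refine ⟨m, hm0, (m : K) • P, ?_, ?_, ?_⟩
    · have e : (m : K) • P = (m : K) • evenProj P + (m : K) • evenProj P + -((m : K) • 1) := by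
        nth_rewrite 1 [← evenProj_sub (P := P)]
        module
      rw [e]
      exact h.add _ (h.add _ hmA _ hmA) _ (h.neg _ (h.smul_nat m h.one))
    · intro b hb
      rw [smul_mul_assoc, smul_mul_assoc, map_smul, smul_eq_mul, mul_assoc, h.comm b hb,
        ← mul_assoc, h.sq, one_mul]
    · have e4 : P ^ 3 * P = 1 := by
        rw [← pow_succ, show 3 + 1 = 2 * 2 by norm_num, pow_mul, pow_two P, h.sq, one_pow]
      rw [_root_.smul_pow, smul_mul_assoc, map_smul, smul_eq_mul, e4, LinearMap.trace_one]
  · rintro ⟨m, hm0, x, hx, hb, h3⟩
    have hm' : (m : K) ≠ 0 := by exact_mod_cast hm0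
    obtain ⟨q, h1, -, -, h4⟩ := trace_gap h (w := (m : K)⁻¹ • x)
      (Submodule.smul_mem _ _ (Submodule.subset_span hx)) (by
        intro b hbA
        rw [smul_mul_assoc, smul_mul_assoc, map_smul, hb b hbA, smul_eq_mul, ← mul_assoc,
          inv_mul_cancel₀ hm', one_mul])
    apply (hm.out 0 1).2
    apply h4
    rw [_root_.smul_pow, smul_mul_assoc, map_smul, h3, smul_eq_mul, ← mul_assoc, ← mul_pow,
      inv_mul_cancel₀ hm', one_pow, one_mul] at h1
    have : (q : ℚ) = Module.finrank K V := by exact_mod_cast h1.symm
    rw [this]
    linarith

end

universe v u w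

variable {C : Type u} [Category.{v} C] [Preadditive C] [MonoidalCategory C] [SymmetricCategory C]
  {K : Type w} [Field K] (R : SuperRealisation C K)

/-- The conjecture `C_NC(A)` with coefficients in `F`: both Künneth projectors are combinations,
with coefficients in `F`, of operators induced by integral correspondences. -/
def KunnethAlgebraic (F : Subfield K) (A : C) : Prop := AlgebraicOver (parity R A) (ops R A) F

theorem result [RightRigidCategory C] [CharZero K] (hu : IntegralUnit C) (A : C)
    (F : Subfield K) :
    GapProperty (parity R A) (ops R A) F ∧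
      (KunnethAlgebraic R F A ↔ IntegralWitness (parity R A) (ops R A)) :=
  ⟨gap (evenRing R hu A) F, witness (evenRing R hu A) F⟩

end Pool.Agent.Results.MP_eadf0f_ag.TraceGap
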